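import Mathlib

open Cardinal Set

namespace Pool.Agent.Work.MP_f4378e_lc

/-- In a countably closed preorder one can meet `ℵ₁` many dense sets by a chain. -/
theorem generic_chain {P : Type} [Preorder P] [Nonempty P]
    (hσ : ∀ q : ℕ → P, (∀ n, q (n + 1) ≤ q n) → ∃ r, ∀ n, r ≤ q n)
    {ι : Type} (hι : #ι ≤ ℵ₁) (D : ι → Set P) (hD : ∀ i p, ∃ q ∈ D i, q ≤ p) :
    ∃ x : ι → P, (∀ i, x i ∈ D i) ∧ ∀ i j, x i ≤ x j ∨ x j ≤ x i := by
  classical
  obtain ⟨_, _, hord⟩ := Cardinal.exists_ord_eq_type_lt ι
  have hinit : ∀ i : ι, (Iio i).Countable := fun i =>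
    le_aleph0_iff_set_countable.mp
      (lt_aleph_one_iff.mp ((Cardinal.mk_Iio_lt i hord).trans_le hι))
  let Q : (i : ι) → ((j : ι) → j < i → P) → P → Prop := fun i prev p =>
    p ∈ D i ∧ ∀ j, ∀ h : j < i, p ≤ prev j h
  let step : (i : ι) → ((j : ι) → j < i → P) → P := fun i prev =>
    if h : ∃ p : P, Q i prev p then h.choose else Classical.arbitrary P
  let x : ι → P := (wellFounded_lt (α := ι)).fix step
  have hx : ∀ i, x i = step i (fun j _ => x j) := fun i =>
    (wellFounded_lt (α := ι)).fix_eq step i
  have key : ∀ i, Q i (fun j _ => x j) (x i) := by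
    intro i
    induction i using (wellFounded_lt (α := ι)).induction with
    | _ i ih =>
      have hex : ∃ p : P, Q i (fun j _ => x j) p := by
        rcases (Iio i).eq_empty_or_nonempty with he | hne
        · obtain ⟨q, hq, _⟩ := hD i (Classical.arbitrary P)
          refine ⟨q, hq, fun j hj => ?_⟩
          exact absurd (show j ∈ Iio i from hj) (by rw [he]; simp)
        · obtain ⟨e, he⟩ := (hinit i).exists_eq_range hne
          have hei : ∀ n, e n < i := fun n => by
            have : e n ∈ range e := mem_range_self n
            rw [← he] at this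
            exact this
          -- running maximum
          let m : ℕ → ι := fun n => Nat.rec (e 0) (fun k a => max a (e (k + 1))) n
          have hm0 : m 0 = e 0 := rfl
          have hms : ∀ k, m (k + 1) = max (m k) (e (k + 1)) := fun k => rfl
          have hmi : ∀ n, m n < i := by
            intro n
            induction n with
            | zero => exact hei 0
            | succ k ihk => rw [hms]; exact max_lt ihk (hei _)
          have hle : ∀ a b, a ≤ b → b < i → x b ≤ x a := by
            intro a b hab hb
            rcases hab.eq_or_lt with h | h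
            · rw [h]
            · exact (ih b hb).2 a h
          obtain ⟨r, hr⟩ := hσ (fun n => x (m n)) (fun n => by
            refine hle (m n) (m (n + 1)) ?_ (hmi (n + 1))
            rw [hms]
            exact le_max_left _ _)
          obtain ⟨q, hq, hqr⟩ := hD i r
          refine ⟨q, hq, fun j hj => ?_⟩
          have : j ∈ range e := by rw [← he]; exact hj
          obtain ⟨n, rfl⟩ := this
          refine hqr.trans ((hr n).trans (hle _ _ ?_ (hmi n)))
          cases n with
          | zero => exact le_rfl
          | succ k => rw [hms]; exact le_max_right _ _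
      rw [hx]
      show Q i _ (if h : ∃ p : P, Q i (fun j _ => x j) p then h.choose else Classical.arbitrary P)
      rw [dif_pos hex]
      exact hex.choose_spec
  refine ⟨x, fun i => (key i).1, fun i j => ?_⟩
  rcases lt_trichotomy i j with h | h | h
  · exact Or.inr ((key j).2 i h)
  · rw [h]; exact Or.inl le_rfl
  · exact Or.inl ((key i).2 j h)

end Pool.Agent.Work.MP_f4378e_lc
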