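import Mathlib

open Set Filter

namespace Pool.Agent.Work.MP_f4378e_lc

lemma exists_sep {u v : Ultrafilter ℕ} (h : u ≠ v) : ∃ A : Set ℕ, A ∈ u ∧ A ∉ v := by
  by_contra hcon
  push Not at hcon
  apply h
  exact (Ultrafilter.eq_of_le (fun A hA => hcon A hA)).symm

/-- There are no nontrivial convergent sequences of ultrafilters. -/
theorem no_conv (t : Ultrafilter ℕ) (x : ℕ → Ultrafilter ℕ) (P : Set ℕ) (hP : P.Infinite)
    (hx : ∀ n ∈ P, x n ≠ t) :
    ∃ E : Set ℕ, E ∉ t ∧ {n ∈ P | E ∈ x n}.Infinite := by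
  classical
  by_contra hcon
  have hfin : ∀ E : Set ℕ, E ∉ t → {n ∈ P | E ∈ x n}.Finite := fun E hE => by
    by_contra h
    exact hcon ⟨E, hE, h⟩
  -- one step
  have hstep : ∀ C : {C : Set ℕ // C ∉ t}, ∃ nA : ℕ × Set ℕ, nA.1 ∈ P ∧ nA.2 ∈ x nA.1 ∧
      nA.2 ∉ t ∧ Disjoint nA.2 C.1 := by
    rintro ⟨C, hC⟩
    have : (P \ {n ∈ P | C ∈ x n}).Infinite := hP.sdiff (hfin C hC)
    obtain ⟨n, hn, hn2⟩ := this.nonempty
    have hCn : C ∉ x n := fun h => hn2 ⟨hn, h⟩
    obtain ⟨A, hA, hAt⟩ := exists_sep (hx n hn)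
    refine ⟨(n, A \ C), hn, ?_, ?_, ?_⟩
    · exact ((x n).sdiff_mem_iff).mpr ⟨hA, hCn⟩
    · intro h
      exact hAt (mem_of_superset h sdiff_subset)
    · exact disjoint_sdiff_left
  choose g hg1 hg2 hg3 hg4 using hstep
  let c : ℕ → {C : Set ℕ // C ∉ t} := fun n => Nat.rec ⟨∅, Ultrafilter.empty_notMem⟩
    (fun _ C => ⟨C.1 ∪ (g C).2, fun h => by
      rcases Ultrafilter.union_mem_iff.mp h with h | h
      · exact C.2 h
      · exact hg3 C h⟩) n
  have hcs : ∀ k, (c (k + 1)).1 = (c k).1 ∪ (g (c k)).2 := fun k => rfl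
  have hmono : Monotone (fun k => (c k).1) := by
    apply monotone_nat_of_le_succ
    intro k
    rw [hcs]
    exact subset_union_left
  have hA : ∀ k, (g (c k)).2 ⊆ (c (k + 1)).1 := fun k => by
    rw [hcs]
    exact subset_union_right
  have hdis : ∀ j k, j < k → Disjoint (g (c k)).2 (g (c j)).2 := fun j k hjk =>
    (hg4 (c k)).mono_right ((hA j).trans (hmono hjk))
  have hdis' : ∀ j k, j ≠ k → Disjoint (g (c k)).2 (g (c j)).2 := fun j k hjk => by
    rcases lt_or_gt_of_ne hjk with h | h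
    · exact hdis j k h
    · exact (hdis k j h).symm
  have hninj : Function.Injective (fun k => (g (c k)).1) := by
    intro j k hjk
    by_contra hne
    have h1 := hg2 (c j)
    have h2 := hg2 (c k)
    have hjk' : (g (c j)).1 = (g (c k)).1 := hjk
    rw [hjk'] at h1
    have h3 := (hdis' j k hne).inter_eq
    have h4 : (g (c k)).2 ∩ (g (c j)).2 ∈ x (g (c k)).1 := inter_mem h2 h1
    rw [h3] at h4
    exact Ultrafilter.empty_notMem h4
  let E : ℕ → Set ℕ := fun r => ⋃ i : ℕ, (g (c (2 * i + r))).2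
  have hEinf : ∀ r, {n ∈ P | E r ∈ x n}.Infinite := by
    intro r
    have hinj : Function.Injective (fun i : ℕ => (g (c (2 * i + r))).1) := by
      intro i j hij
      have := hninj hij
      omega
    refine (infinite_range_of_injective hinj).mono ?_
    rintro _ ⟨i, rfl⟩
    exact ⟨hg1 _, mem_of_superset (hg2 _) (subset_iUnion (fun i : ℕ => (g (c (2 * i + r))).2) i)⟩
  have hEt : ∀ r, E r ∈ t := fun r => by
    by_contra h
    exact hEinf r (hfin _ h)
  have hE01 : E 0 ∩ E 1 = ∅ := by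
    ext y
    simp only [E, mem_inter_iff, mem_iUnion, mem_empty_iff_false, iff_false, not_and, not_exists]
    rintro ⟨i, hi⟩ j hj
    have := hdis' (2 * i + 0) (2 * j + 1) (by omega)
    exact (Set.disjoint_left.mp this) hj hi
  have := inter_mem (hEt 0) (hEt 1)
  rw [hE01] at this
  exact Ultrafilter.empty_notMem this

/-- Two sequences of ultrafilters that differ at each index of an infinite set are separated by
one set at infinitely many of the indices. -/
theorem separate (u v : ℕ → Ultrafilter ℕ) (P : Set ℕ) (hP : P.Infinite)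
    (huv : ∀ n ∈ P, u n ≠ v n) :
    ∃ B : Set ℕ, {n ∈ P | ¬ (B ∈ u n ↔ B ∈ v n)}.Infinite := by
  classical
  by_contra hcon
  have hfin : ∀ E : Set ℕ, {n ∈ P | ¬ (E ∈ u n ↔ E ∈ v n)}.Finite := fun E => by
    by_contra h
    exact hcon ⟨E, h⟩
  let S : Type := {s : Set ℕ × Set ℕ // s.1 ⊆ P ∧ s.1.Infinite ∧ ∀ n ∈ s.1, s.2 ∈ u n ∧ s.2 ∈ v n}
  have hstep : ∀ s : S, ∃ s' : S, ∃ n ∈ s.1.1, ∃ C : Set ℕ, C ⊆ s.1.2 ∧
      ¬ (C ∈ u n ↔ C ∈ v n) ∧ s'.1.2 ⊆ s.1.2 \ C ∧ s'.1.2 ∉ u n ∧ s'.1.2 ∉ v n ∧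
      s'.1.1 ⊆ s.1.1 := by
    rintro ⟨⟨Q, D⟩, hQP, hQ, hD⟩
    simp only at hQP hQ hD
    obtain ⟨n, hn⟩ := hQ.nonempty
    obtain ⟨A, hAu, hAv⟩ := exists_sep (huv n (hQP hn))
    -- a separating subset of `D`, not in the ultrafilters for infinitely many indices
    have h1 : ∃ C ⊆ D, ¬ (C ∈ u n ↔ C ∈ v n) ∧
        {m ∈ Q | C ∉ u m ∧ C ∉ v m}.Infinite := by
      have hC0 : A ∩ D ∈ u n := inter_mem hAu (hD n hn).1
      have hC0' : A ∩ D ∉ v n := fun h => hAv (mem_of_superset h inter_subset_left)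
      have h2 : (Q \ {n ∈ P | ¬ (A ∩ D ∈ u n ↔ A ∩ D ∈ v n)}).Infinite := hQ.sdiff (hfin _)
      have h3 : (Q \ {n ∈ P | ¬ (A ∩ D ∈ u n ↔ A ∩ D ∈ v n)}) ⊆
          {m ∈ Q | A ∩ D ∈ u m ∧ A ∩ D ∈ v m} ∪ {m ∈ Q | A ∩ D ∉ u m ∧ A ∩ D ∉ v m} := by
        rintro m ⟨hm, hm2⟩
        have hiff : A ∩ D ∈ u m ↔ A ∩ D ∈ v m := by
          by_contra h
          exact hm2 ⟨hQP hm, h⟩
        by_cases hmu : A ∩ D ∈ u m
        · exact Or.inl ⟨hm, hmu, hiff.mp hmu⟩
        · exact Or.inr ⟨hm, hmu, fun h => hmu (hiff.mpr h)⟩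
      rcases infinite_union.mp (h2.mono h3) with h | h
      · refine ⟨D \ (A ∩ D), sdiff_subset, ?_, ?_⟩
        · intro hiff
          have h5 : D \ (A ∩ D) ∉ u n := fun h => ((u n).sdiff_mem_iff.mp h).2 hC0
          have h6 : D \ (A ∩ D) ∈ v n := (v n).sdiff_mem_iff.mpr ⟨(hD n hn).2, hC0'⟩
          exact h5 (hiff.mpr h6)
        · refine h.mono ?_
          rintro m ⟨hm, hm1, hm2⟩
          exact ⟨hm, fun h => ((u m).sdiff_mem_iff.mp h).2 hm1,
            fun h => ((v m).sdiff_mem_iff.mp h).2 hm2⟩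
      · exact ⟨A ∩ D, inter_subset_right, fun hiff => hC0' (hiff.mp hC0), h⟩
    obtain ⟨C, hCD, hCn, hCQ⟩ := h1
    -- the ultrafilter at `n` that does not contain `C`
    obtain ⟨t, ht, hCt, t', ht', hCt'⟩ : ∃ t, (t = u n ∨ t = v n) ∧ C ∉ t ∧
        ∃ t', (∀ s, s = u n ∨ s = v n → s = t ∨ s = t') ∧ C ∈ t' := by
      by_cases h : C ∈ u n
      · have h' : C ∉ v n := fun h' => hCn ⟨fun _ => h', fun _ => h⟩
        exact ⟨v n, Or.inr rfl, h', u n, fun s hs => hs.symm, h⟩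
      · have h' : C ∈ v n := by
          by_contra h'
          exact hCn ⟨fun h2 => absurd h2 h, fun h2 => absurd h2 h'⟩
        exact ⟨u n, Or.inl rfl, h, v n, fun s hs => hs, h'⟩
    obtain ⟨E, hEt, hE⟩ := no_conv t (fun m => if u m ≠ t then u m else v m)
      {m ∈ Q | C ∉ u m ∧ C ∉ v m} hCQ (by
        rintro m ⟨hm, _⟩
        by_cases h : u m ≠ t
        · simp only [h, ne_eq, not_false_eq_true, if_true]
        · simp only [h, if_false]
          push Not at h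
          rw [← h]
          exact (huv m (hQP hm)).symm)
    let Q' : Set ℕ := {m ∈ {m ∈ Q | C ∉ u m ∧ C ∉ v m} | E ∈ (if u m ≠ t then u m else v m)} \
      {n ∈ P | ¬ (E ∈ u n ↔ E ∈ v n)}
    have hQ'inf : Q'.Infinite := hE.sdiff (hfin E)
    have hQ'Q : Q' ⊆ Q := fun m hm => hm.1.1.1
    have hQ'E : ∀ m ∈ Q', E ∈ u m ∧ E ∈ v m := by
      rintro m ⟨⟨⟨hmQ, _⟩, hmE⟩, hm2⟩
      have hiff : E ∈ u m ↔ E ∈ v m := by
        by_contra h
        exact hm2 ⟨hQP hmQ, h⟩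
      by_cases h : u m ≠ t
      · rw [if_pos h] at hmE
        exact ⟨hmE, hiff.mp hmE⟩
      · rw [if_neg h] at hmE
        exact ⟨hiff.mpr hmE, hmE⟩
    have hQ'D : ∀ m ∈ Q', (D \ C) ∩ E ∈ u m ∧ (D \ C) ∩ E ∈ v m := by
      intro m hm
      have h1 := hQ'E m hm
      obtain ⟨⟨⟨hmQ, hmC⟩, hmE⟩, hm2⟩ := hm
      exact ⟨inter_mem ((u m).sdiff_mem_iff.mpr ⟨(hD m hmQ).1, hmC.1⟩) h1.1,
        inter_mem ((v m).sdiff_mem_iff.mpr ⟨(hD m hmQ).2, hmC.2⟩) h1.2⟩
    have hnot : ∀ s, s = u n ∨ s = v n → (D \ C) ∩ E ∉ s := by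
      intro s hs hmem
      rcases ht' s hs with h | h
      · rw [h] at hmem
        exact hEt (mem_of_superset hmem inter_subset_right)
      · rw [h] at hmem
        have := inter_mem hmem hCt'
        have h0 : ((D \ C) ∩ E) ∩ C = ∅ := by
          ext y
          simp
          tauto
        rw [h0] at this
        exact Ultrafilter.empty_notMem this
    exact ⟨⟨(Q', (D \ C) ∩ E), hQ'Q.trans hQP, hQ'inf, hQ'D⟩, n, hn, C, hCD, hCn,
      inter_subset_left, hnot _ (Or.inl rfl), hnot _ (Or.inr rfl), hQ'Q⟩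
  choose next nn hnn C hC1 hC2 hC3 hC4 hC5 hC6 using hstep
  let s : ℕ → S := fun k => Nat.rec ⟨(P, univ), Subset.rfl, hP, fun n _ => ⟨univ_mem, univ_mem⟩⟩
    (fun _ s => next s) k
  have hss : ∀ k, s (k + 1) = next (s k) := fun k => rfl
  have hmonoD : ∀ j k, j ≤ k → (s k).1.2 ⊆ (s j).1.2 := by
    intro j k hjk
    induction k, hjk using Nat.le_induction with
    | base => exact Subset.rfl
    | succ k hk ih =>
      rw [hss]
      exact (hC3 (s k)).trans (sdiff_subset.trans ih)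
  have hmonoQ : ∀ j k, j ≤ k → (s k).1.1 ⊆ (s j).1.1 := by
    intro j k hjk
    induction k, hjk using Nat.le_induction with
    | base => exact Subset.rfl
    | succ k hk ih =>
      rw [hss]
      exact (hC6 (s k)).trans ih
  have hninj : Function.Injective (fun k => nn (s k)) := by
    have haux : ∀ j k, j < k → nn (s j) ≠ nn (s k) := by
      intro j k hjk heq
      have h1 : nn (s k) ∈ (s (j + 1)).1.1 := hmonoQ _ _ hjk (hnn (s k))
      have h2 := ((s (j + 1)).2.2.2 _ h1).1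
      rw [← heq] at h2
      rw [hss] at h2
      exact hC4 (s j) h2
    intro j k hjk
    by_contra hne
    rcases lt_or_gt_of_ne hne with h | h
    · exact haux j k h hjk
    · exact haux k j h hjk.symm
  let B : Set ℕ := ⋃ k, C (s k)
  refine hcon ⟨B, (infinite_range_of_injective hninj).mono ?_⟩
  rintro _ ⟨k, rfl⟩
  refine ⟨(s k).2.1 (hnn (s k)), ?_⟩
  have hsub : B ⊆ ((s k).1.2)ᶜ ∪ (C (s k) ∪ (s (k + 1)).1.2) := by
    intro y hy
    simp only [B, mem_iUnion] at hy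
    obtain ⟨j, hj⟩ := hy
    rcases lt_trichotomy j k with h | h | h
    · left
      intro hyk
      have : y ∈ (s (j + 1)).1.2 := hmonoD _ _ h hyk
      rw [hss] at this
      exact (hC3 (s j) this).2 hj
    · right; left; rw [← h]; exact hj
    · right; right
      exact hmonoD _ _ h (hC1 (s j) hj)
  have hkey : ∀ w : Ultrafilter ℕ, (s k).1.2 ∈ w → (s (k + 1)).1.2 ∉ w →
      (B ∈ w ↔ C (s k) ∈ w) := by
    intro w hw1 hw2
    constructor
    · intro hB
      rcases Ultrafilter.union_mem_iff.mp (mem_of_superset hB hsub) with h | h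
      · exact absurd h (Ultrafilter.compl_notMem_iff.mpr hw1)
      · rcases Ultrafilter.union_mem_iff.mp h with h | h
        · exact h
        · exact absurd h hw2
    · intro h
      exact mem_of_superset h (subset_iUnion (fun k => C (s k)) k)
  have hD := (s k).2.2.2 _ (hnn (s k))
  show ¬ (B ∈ u (nn (s k)) ↔ B ∈ v (nn (s k)))
  rw [hkey _ hD.1 (by rw [hss]; exact hC4 (s k)), hkey _ hD.2 (by rw [hss]; exact hC5 (s k))]
  exact hC2 (s k)

end Pool.Agent.Work.MP_f4378e_lc
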