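import Mathlib
import Pool.Agent.Work.MP_f4378e_lc.Gen
import Pool.Agent.Work.MP_f4378e_lc.Sep

open Set Filter Cardinal

namespace Pool.Agent.Work.MP_f4378e_lc

/-- Hausdorff ultrafilters. -/
def Hausd (w : Ultrafilter ℕ) : Prop :=
  ∀ f g : ℕ → ℕ, w.map f = w.map g → ∀ᶠ x in (w : Filter ℕ), f x = g x

/-- The sum of the ultrafilters `w n` along `V`. -/
noncomputable def USum (V : Ultrafilter ℕ) (w : ℕ → Ultrafilter ℕ) : Ultrafilter ℕ :=
  V.bind (fun n => (w n).map (fun x => Nat.pair n x))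

lemma mem_uSum {V : Ultrafilter ℕ} {w : ℕ → Ultrafilter ℕ} {s : Set ℕ} :
    s ∈ USum V w ↔ ∀ᶠ n in (V : Filter ℕ), ∀ᶠ x in (w n : Filter ℕ), Nat.pair n x ∈ s := by
  rfl

lemma mem_map_uSum {V : Ultrafilter ℕ} {w : ℕ → Ultrafilter ℕ} {f : ℕ → ℕ} {s : Set ℕ} :
    s ∈ (USum V w).map f ↔
      ∀ᶠ n in (V : Filter ℕ), s ∈ (w n).map (fun x => f (Nat.pair n x)) := by
  rw [Ultrafilter.mem_map, mem_uSum]
  rfl

lemma Hausd.map {w : Ultrafilter ℕ} (hw : Hausd w) (f : ℕ → ℕ) : Hausd (w.map f) := by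
  intro a b hab
  rw [Ultrafilter.map_map, Ultrafilter.map_map] at hab
  exact hw _ _ hab

lemma hausd_pure (n : ℕ) : Hausd (pure n) := by
  intro f g hfg
  rw [Ultrafilter.map_pure, Ultrafilter.map_pure] at hfg
  have := Ultrafilter.pure_injective hfg
  rw [Ultrafilter.coe_pure]
  simpa using this

/-- Infinite subsets of `ℕ`, ordered by inclusion modulo finite sets. -/
structure InfSet where
  /-- the set -/
  s : Set ℕ
  /-- it is infinite -/
  inf : s.Infinite

instance : Preorder InfSet where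
  le q p := (q.s \ p.s).Finite
  le_refl p := by simp
  le_trans a b c hab hbc := by
    refine (hab.union hbc).subset ?_
    intro y hy
    by_cases h : y ∈ b.s
    · exact Or.inr ⟨h, hy.2⟩
    · exact Or.inl ⟨hy.1, h⟩

lemma hle (q p : InfSet) : q ≤ p ↔ (q.s \ p.s).Finite := Iff.rfl

instance : Nonempty InfSet := ⟨⟨univ, infinite_univ⟩⟩

lemma infSet_closed (q : ℕ → InfSet) (hq : ∀ n, q (n + 1) ≤ q n) : ∃ r, ∀ n, r ≤ q n := by
  have hanti : ∀ m n, m ≤ n → q n ≤ q m := fun m n hmn =>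
    (antitone_nat_of_succ_le hq) hmn
  have hfinint : ∀ n : ℕ, ((q n).s \ ⋂ k ∈ Finset.range (n + 1), (q k).s).Finite := by
    intro n
    have : (q n).s \ ⋂ k ∈ Finset.range (n + 1), (q k).s =
        ⋃ k ∈ Finset.range (n + 1), ((q n).s \ (q k).s) := by
      ext y
      simp only [Set.mem_sdiff, mem_iInter, mem_iUnion, not_forall]
      constructor
      · rintro ⟨h1, k, hk, h2⟩
        exact ⟨k, hk, h1, h2⟩
      · rintro ⟨k, hk, h1, h2⟩
        exact ⟨h1, k, hk, h2⟩
    rw [this]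
    refine Set.Finite.biUnion (Finset.finite_toSet _) ?_
    intro k hk
    exact (hle _ _).mp (hanti k n (by simpa [Nat.lt_succ_iff] using hk))
  have hinf : ∀ n : ℕ, (⋂ k ∈ Finset.range (n + 1), (q k).s).Infinite := by
    intro n h
    exact (q n).inf (((hfinint n).union h).subset (by
      intro y hy
      by_cases h : y ∈ ⋂ k ∈ Finset.range (n + 1), (q k).s
      · exact Or.inr h
      · exact Or.inl ⟨hy, h⟩))
  have hch : ∀ n : ℕ, ∃ a : ℕ, n ≤ a ∧ ∀ k ≤ n, a ∈ (q k).s := by
    intro n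
    obtain ⟨a, ha, han⟩ := (hinf n).exists_gt n
    refine ⟨a, han.le, fun k hk => ?_⟩
    simp only [mem_iInter] at ha
    exact ha k (by simpa [Nat.lt_succ_iff] using hk)
  choose a ha1 ha2 using hch
  refine ⟨⟨range a, ?_⟩, ?_⟩
  · intro hfin
    obtain ⟨N, hN⟩ := hfin.bddAbove
    have := hN (mem_range_self (N + 1))
    have := ha1 (N + 1)
    omega
  · intro n
    rw [hle]
    refine ((Finset.range n).image a).finite_toSet.subset ?_
    rintro _ ⟨⟨k, rfl⟩, hk⟩
    simp only [Finset.coe_image, mem_image, Finset.coe_range, mem_Iio]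
    refine ⟨k, ?_, rfl⟩
    by_contra hkn
    exact hk (ha2 k n (by omega))

/-- Under the continuum hypothesis some sum of any sequence of Hausdorff ultrafilters is
Hausdorff. -/
theorem exists_sum (CH : (ℵ₁ : Cardinal.{0}) = 𝔠) (w : ℕ → Ultrafilter ℕ) (hw : ∀ n, Hausd (w n)) :
    ∃ V : Ultrafilter ℕ, (V : Filter ℕ) ≤ cofinite ∧ Hausd (USum V w) := by
  classical
  let D : (ℕ → ℕ → ℕ) × (ℕ → ℕ → ℕ) → Set InfSet :=
    fun fg => {p | (∀ n ∈ p.s, ∀ᶠ y in (w n : Filter ℕ), fg.1 n y = fg.2 n y) ∨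
      ∃ B : Set ℕ, ∀ n ∈ p.s, ¬ (B ∈ (w n).map (fg.1 n) ↔ B ∈ (w n).map (fg.2 n))}
  have hD : ∀ i p, ∃ q ∈ D i, q ≤ p := by
    rintro ⟨f, g⟩ p
    by_cases h : {n ∈ p.s | ∀ᶠ y in (w n : Filter ℕ), f n y = g n y}.Infinite
    · refine ⟨⟨_, h⟩, Or.inl ?_, ?_⟩
      · intro n hn
        exact hn.2
      · rw [hle]
        convert Set.finite_empty
        rw [sdiff_eq_empty]
        intro n hn
        exact hn.1
    · have h1 : (p.s \ {n ∈ p.s | ∀ᶠ y in (w n : Filter ℕ), f n y = g n y}).Infinite :=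
        p.inf.sdiff (not_infinite.mp h)
      obtain ⟨B, hB⟩ := separate (fun n => (w n).map (f n)) (fun n => (w n).map (g n)) _ h1
        (fun n hn heq => hn.2 ⟨hn.1, hw n _ _ heq⟩)
      refine ⟨⟨_, hB⟩, Or.inr ⟨B, ?_⟩, ?_⟩
      · intro n hn
        exact hn.2
      · rw [hle]
        convert Set.finite_empty
        rw [sdiff_eq_empty]
        intro n hn
        exact hn.1.1
  obtain ⟨x, hx1, hx2⟩ := generic_chain (P := InfSet) infSet_closed
    (ι := (ℕ → ℕ → ℕ) × (ℕ → ℕ → ℕ)) (by rw [CH]; simp) D hD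
  · -- the ultrafilter generated by the tower
    let F : Filter ℕ :=
      { sets := {s | ∃ i, ((x i).s \ s).Finite}
        univ_sets := ⟨Classical.arbitrary _, by simp⟩
        sets_of_superset := fun {s t} ⟨i, hi⟩ hst => ⟨i, hi.subset (by
          intro y hy
          exact ⟨hy.1, fun h => hy.2 (hst h)⟩)⟩
        inter_sets := fun {s t} ⟨i, hi⟩ ⟨j, hj⟩ => by
          rcases hx2 i j with h | h
          · refine ⟨i, (hi.union (hj.union ((hle _ _).mp h))).subset ?_⟩
            rintro y ⟨hy1, hy2⟩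
            by_cases h1 : y ∈ s
            · by_cases h2 : y ∈ (x j).s
              · exact Or.inr (Or.inl ⟨h2, fun h3 => hy2 ⟨h1, h3⟩⟩)
              · exact Or.inr (Or.inr ⟨hy1, h2⟩)
            · exact Or.inl ⟨hy1, h1⟩
          · refine ⟨j, (hj.union (hi.union ((hle _ _).mp h))).subset ?_⟩
            rintro y ⟨hy1, hy2⟩
            by_cases h1 : y ∈ t
            · by_cases h2 : y ∈ (x i).s
              · exact Or.inr (Or.inl ⟨h2, fun h3 => hy2 ⟨h3, h1⟩⟩)
              · exact Or.inr (Or.inr ⟨hy1, h2⟩)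
            · exact Or.inl ⟨hy1, h1⟩ }
    have hF : ∀ s, s ∈ F ↔ ∃ i, ((x i).s \ s).Finite := fun s => Iff.rfl
    have : F.NeBot := by
      rw [neBot_iff]
      intro h
      have : ∅ ∈ F := by rw [h]; trivial
      rw [hF] at this
      obtain ⟨i, hi⟩ := this
      rw [sdiff_empty] at hi
      exact (x i).inf hi
    have hVF : ((Ultrafilter.of F : Ultrafilter ℕ) : Filter ℕ) ≤ F := Ultrafilter.of_le F
    have hxF : ∀ i, (x i).s ∈ Ultrafilter.of F := fun i => hVF ((hF _).mpr ⟨i, by simp⟩)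
    refine ⟨Ultrafilter.of F, hVF.trans ?_, ?_⟩
    · intro s hs
      rw [hF]
      refine ⟨Classical.arbitrary _, (mem_cofinite.mp hs).subset ?_⟩
      intro y hy
      exact hy.2
    · intro f g hfg
      have hi := hx1 (fun n y => f (Nat.pair n y), fun n y => g (Nat.pair n y))
      rcases hi with hi | ⟨B, hB⟩
      · show {y | f y = g y} ∈ USum _ w
        rw [mem_uSum]
        filter_upwards [hxF (fun n y => f (Nat.pair n y), fun n y => g (Nat.pair n y))] with n hn
        exact hi n hn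
      · exfalso
        have h1 : B ∈ (USum (Ultrafilter.of F) w).map f ↔ B ∈ (USum (Ultrafilter.of F) w).map g := by
          rw [hfg]
        rw [mem_map_uSum, mem_map_uSum] at h1
        have h2 : ∀ᶠ n in ((Ultrafilter.of F : Ultrafilter ℕ) : Filter ℕ),
            ¬ (B ∈ (w n).map (fun y => f (Nat.pair n y)) ↔
              B ∈ (w n).map (fun y => g (Nat.pair n y))) := by
          filter_upwards [hxF (fun n y => f (Nat.pair n y), fun n y => g (Nat.pair n y))]
            with n hn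
          exact hB n hn
        by_cases h3 : ∀ᶠ n in ((Ultrafilter.of F : Ultrafilter ℕ) : Filter ℕ),
            B ∈ (w n).map (fun y => f (Nat.pair n y))
        · obtain ⟨n, hn⟩ := (h2.and (h3.and (h1.mp h3))).exists
          exact hn.1 ⟨fun _ => hn.2.2, fun _ => hn.2.1⟩
        · have h4 : ¬ ∀ᶠ n in ((Ultrafilter.of F : Ultrafilter ℕ) : Filter ℕ),
            B ∈ (w n).map (fun y => g (Nat.pair n y)) := fun h => h3 (h1.mpr h)
          rw [← Ultrafilter.eventually_not] at h3 h4
          obtain ⟨n, hn⟩ := (h2.and (h3.and h4)).exists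
          exact hn.1 ⟨fun h => absurd h hn.2.1, fun h => absurd h hn.2.2⟩

/-- `Below w w'`: some product of `w` with a nonprincipal ultrafilter lies Rudin-Keisler below
`w'`. -/
def Below (w w' : Ultrafilter ℕ) : Prop :=
  ∃ V : Ultrafilter ℕ, (V : Filter ℕ) ≤ cofinite ∧ ∃ f : ℕ → ℕ, w'.map f = USum V (fun _ => w)

lemma map_snd_uSum (V w : Ultrafilter ℕ) :
    (USum V (fun _ => w)).map (fun y => y.unpair.2) = w := by
  apply Ultrafilter.coe_injective
  apply Filter.ext
  intro s
  show s ∈ (USum V (fun _ => w)).map (fun y => y.unpair.2) ↔ s ∈ w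
  rw [mem_map_uSum]
  simp only [Nat.unpair_pair]
  constructor
  · intro h
    obtain ⟨n, hn⟩ := h.exists
    exact hn
  · intro h
    exact Eventually.of_forall fun n => h

lemma Below.trans {a b c : Ultrafilter ℕ} (hab : Below a b) (hbc : Below b c) : Below a c := by
  obtain ⟨V, hV, f, hf⟩ := hab
  obtain ⟨V', hV', f', hf'⟩ := hbc
  refine ⟨V, hV, fun y => f ((f' y).unpair.2), ?_⟩
  have h1 : c.map (fun y => (f' y).unpair.2) = b := by
    have := map_snd_uSum V' b
    rw [← hf', Ultrafilter.map_map] at this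
    exact this
  rw [← hf, ← h1, Ultrafilter.map_map]
  rfl

lemma Below.exists_map {a b : Ultrafilter ℕ} (hab : Below a b) : ∃ f : ℕ → ℕ, b.map f = a := by
  obtain ⟨V, hV, f, hf⟩ := hab
  refine ⟨fun y => (f y).unpair.2, ?_⟩
  have := map_snd_uSum V a
  rw [← hf, Ultrafilter.map_map] at this
  exact this

lemma Below.of_map {a b c : Ultrafilter ℕ} (hab : Below a b) {g : ℕ → ℕ} (hg : c.map g = b) :
    Below a c := by
  obtain ⟨V, hV, f, hf⟩ := hab
  refine ⟨V, hV, f ∘ g, ?_⟩
  rw [← hf, ← hg, Ultrafilter.map_map]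

lemma not_below_self {w : Ultrafilter ℕ} (hw : Hausd w) : ¬ Below w w := by
  rintro ⟨V, hV, f, hf⟩
  have h1 : w.map (fun y => (f y).unpair.2) = w.map id := by
    have := map_snd_uSum V w
    rw [← hf, Ultrafilter.map_map] at this
    rw [Ultrafilter.map_id]
    exact this
  have h2 := hw _ _ h1
  have h3 : {y | f y.unpair.2 = y} ∈ w.map f := by
    rw [Ultrafilter.mem_map]
    filter_upwards [h2] with x hx
    show f (f x).unpair.2 = f x
    have : (f x).unpair.2 = x := hx
    rw [this]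
  rw [hf, mem_uSum] at h3
  simp only [mem_ofPred_eq, Nat.unpair_pair] at h3
  obtain ⟨n, hn⟩ := h3.exists
  have h4 : ∀ᶠ m in (V : Filter ℕ), m ≠ n := hV (by simp)
  obtain ⟨m, hm, hmn⟩ := (h3.and h4).exists
  obtain ⟨x, hx1, hx2⟩ := (hn.and hm).exists
  have := hx1.symm.trans hx2
  exact hmn (Nat.pair_eq_pair.mp this).1.symm

/-- There is a family of Hausdorff ultrafilters, linearly ordered by `Below`, each countable
subset of which is bounded in the family. -/
theorem exists_family (CH : (ℵ₁ : Cardinal.{0}) = 𝔠) :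
    ∃ C : Set (Ultrafilter ℕ), C.Nonempty ∧ (∀ c ∈ C, Hausd c) ∧
      ∀ c : ℕ → Ultrafilter ℕ, (∀ n, c n ∈ C) → ∃ d ∈ C, ∀ n, Below (c n) d := by
  classical
  let r : {w : Ultrafilter ℕ // Hausd w} → {w : Ultrafilter ℕ // Hausd w} → Prop :=
    fun a b => Below a.1 b.1
  let C := maxChain r
  have hC : IsMaxChain r C := maxChain_spec
  have hirr : ∀ a, ¬ r a a := fun a => not_below_self a.2
  have htrans : ∀ a b c, r a b → r b c → r a c := fun a b c hab hbc => hab.trans hbc
  -- no element is above all of `C`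
  have hmax : ∀ w : {w : Ultrafilter ℕ // Hausd w}, ¬ ∀ c ∈ C, r c w := by
    intro w hw
    have h1 : IsChain r (insert w C) := hC.isChain.insert (fun b hb _ => Or.inr (hw b hb))
    have h2 := hC.2 h1 (subset_insert w C)
    have h3 : w ∈ C := by rw [h2]; exact mem_insert w C
    exact hirr w (hw w h3)
  -- no maximum
  have hnomax : ∀ m ∈ C, ∃ c ∈ C, r m c := by
    intro m hm
    by_contra hcon
    push Not at hcon
    obtain ⟨V, hV, hVm⟩ := exists_sum CH (fun _ => m.1) (fun _ => m.2)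
    have hmw : r m ⟨_, hVm⟩ := ⟨V, hV, id, by rw [Ultrafilter.map_id]⟩
    apply hmax ⟨_, hVm⟩
    intro c hc
    by_cases hcm : c = m
    · rw [hcm]; exact hmw
    · rcases hC.isChain hc hm hcm with h | h
      · exact htrans _ _ _ h hmw
      · exact absurd h (hcon c hc)
  have hpair : ∀ a ∈ C, ∀ b ∈ C, ∃ c ∈ C, r a c ∧ r b c := by
    intro a ha b hb
    by_cases hab : a = b
    · obtain ⟨c, hc, hac⟩ := hnomax a ha
      exact ⟨c, hc, hac, hab ▸ hac⟩
    · rcases hC.isChain ha hb hab with h | h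
      · obtain ⟨c, hc, hbc⟩ := hnomax b hb
        exact ⟨c, hc, htrans _ _ _ h hbc, hbc⟩
      · obtain ⟨c, hc, hac⟩ := hnomax a ha
        exact ⟨c, hc, hac, htrans _ _ _ h hac⟩
  have hbdd : ∀ c : ℕ → C, ∃ d ∈ C, ∀ n, r (c n).1 d := by
    intro c
    choose nx hnx1 hnx2 hnx3 using hpair
    let d : ℕ → C := fun n => Nat.rec (c 0)
      (fun k e => ⟨nx e.1 e.2 (c k).1 (c k).2, hnx1 _ _ _ _⟩) n
    have hd1 : ∀ n, r (d n).1 (d (n + 1)).1 := fun n => hnx2 _ _ _ _
    have hd2 : ∀ n, r (c n).1 (d (n + 1)).1 := fun n => hnx3 _ _ _ _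
    have hdm : ∀ m n, m < n → r (d m).1 (d n).1 := by
      intro m n hmn
      induction n, hmn using Nat.le_induction with
      | base => exact hd1 m
      | succ k hk ih => exact htrans _ _ _ ih (hd1 k)
    obtain ⟨V, hV, hVd⟩ := exists_sum CH (fun n => (d n).1.1) (fun n => (d n).1.2)
    -- the sum is above every `d m`
    have hup : ∀ m, ∃ g : ℕ → ℕ, (USum V (fun n => (d n).1.1)).map g = (d m).1.1 := by
      intro m
      have : ∀ n, ∃ g : ℕ → ℕ, m < n → ((d n).1.1).map g = (d m).1.1 := by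
        intro n
        by_cases hmn : m < n
        · obtain ⟨g, hg⟩ := Below.exists_map (hdm m n hmn)
          exact ⟨g, fun _ => hg⟩
        · exact ⟨id, fun h => absurd h hmn⟩
      choose g hg using this
      refine ⟨fun y => g y.unpair.1 y.unpair.2, ?_⟩
      apply Ultrafilter.coe_injective
      apply Filter.ext
      intro s
      show s ∈ (USum V (fun n => (d n).1.1)).map (fun y => g y.unpair.1 y.unpair.2) ↔
        s ∈ (d m).1.1
      rw [mem_map_uSum]
      simp only [Nat.unpair_pair]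
      have hlarge : ∀ᶠ n in (V : Filter ℕ), m < n := by
        apply hV
        rw [mem_cofinite]
        refine (Set.finite_Iic m).subset ?_
        intro n hn
        simpa using hn
      constructor
      · intro h
        obtain ⟨n, hn, hmn⟩ := (h.and hlarge).exists
        have := hg n hmn
        rw [← this]
        exact hn
      · intro h
        filter_upwards [hlarge] with n hmn
        have := hg n hmn
        rw [← this] at h
        exact h
    have hnot := hmax ⟨_, hVd⟩
    push Not at hnot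
    obtain ⟨e, he, hne⟩ := hnot
    have hne' : ∀ n, ¬ r e (d n).1 := by
      intro n hen
      obtain ⟨g, hg⟩ := hup n
      exact hne (Below.of_map hen hg)
    have hde : ∀ n, r (d n).1 e := by
      intro n
      by_cases h : (d n).1 = e
      · exact absurd (h ▸ hd1 n : r e (d (n + 1)).1) (hne' (n + 1))
      · rcases hC.isChain (d n).2 he h with h | h
        · exact h
        · exact absurd h (hne' n)
    exact ⟨e, he, fun n => htrans _ _ _ (hd2 n) (hde (n + 1))⟩
  refine ⟨Subtype.val '' C, ?_, ?_, ?_⟩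
  · have h := hmax ⟨pure 0, hausd_pure 0⟩
    push Not at h
    obtain ⟨c, hc, _⟩ := h
    exact ⟨c.1, c, hc, rfl⟩
  · rintro _ ⟨c, _, rfl⟩
    exact c.2
  · intro c hc
    choose c' hc'1 hc'2 using hc
    obtain ⟨d, hd, hd2⟩ := hbdd (fun n => ⟨c' n, hc'1 n⟩)
    refine ⟨d.1, ⟨d, hd, rfl⟩, fun n => ?_⟩
    rw [← hc'2 n]
    exact hd2 n

end Pool.Agent.Work.MP_f4378e_lc
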